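import Pool.Agent.helper60.MW.Spec
import Pool.Agent.helper17.WormPath

set_option autoImplicit false

namespace Pool.Agent.MW

open MeasureTheory Set Pool.Agent.helper17.Worm

theorem REG : REG_stmt := by
  intro X hX hcov
  have h1 : ∀ f : ℝ → ℂ, LipschitzWith 1 f →
      ∃ a b : ℂ, ‖a‖ = 1 ∧ ∀ t ∈ Icc (0 : ℝ) 1, a * f t + b ∈ X := by
    intro f hf
    obtain ⟨g, hg⟩ := hcov f hf
    exact ⟨Complex.exp (Complex.I * g.1), g.2, norm_rot g.1, fun t ht => hg t ht⟩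
  obtain ⟨δ, hδ, hd⟩ := regular hX h1
  refine ⟨δ, hδ, ?_⟩
  rintro A ⟨_, f, hf, hA⟩
  obtain ⟨a, b, ha, hab⟩ := hd f hf
  refine ⟨(Complex.arg a, b), ?_⟩
  have harg : Complex.exp (Complex.I * ((Complex.arg a : ℝ) : ℂ)) = a := by
    have h2 := Complex.norm_mul_exp_arg_mul_I a
    rw [ha, Complex.ofReal_one, one_mul, mul_comm] at h2
    exact h2
  intro z hz
  obtain ⟨t, ht, rfl⟩ := hA hz
  have h3 : mv (Complex.arg a, b) (f t) = a * f t + b := by
    unfold mv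
    simp only
    rw [harg]
  rw [h3]
  exact hab t ht

end Pool.Agent.MW
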